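import Pool.Agent.V1121.PF.LC.Main
import Pool.Agent.V1121.PF.Coset
set_option autoImplicit false

/-! From proper coset progressions to proper progressions in `ℤ/N`; the small doubling theorem. -/

namespace Pool.Agent.V1121.PF.LC

open Finset Pool.Agent.TH858 Pool.Agent.TH858.GP
open scoped Pointwise

variable {N : ℕ} [NeZero N]

/-- a subgroup of `ℤ/N` is covered by two translates of a proper one-dimensional progression -/
theorem cyclic_prog (H : AddSubgroup (ZMod N)) :
    ∃ (h : ZMod N) (L₀ : ℕ), h ∈ H ∧ 2 * L₀ + 1 ≤ Nat.card H ∧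
      (∀ c : ℤ, |c| ≤ 2 * (L₀ : ℤ) → c • h = 0 → c = 0) ∧
      ∀ x ∈ H, ∃ c : ℤ, |c| ≤ (L₀ : ℤ) ∧ (x = c • h ∨ x = c • h + h) := by
  obtain ⟨g, hg⟩ := IsAddCyclic.exists_generator (α := H)
  have hq := addOrderOf_eq_card_of_forall_mem_zmultiples hg
  have hqpos : 0 < Nat.card H := Nat.card_pos
  obtain ⟨q, hqdef⟩ : ∃ q, q = Nat.card H := ⟨_, rfl⟩
  rw [← hqdef] at hq hqpos ⊢
  refine ⟨(g : ZMod N), (q - 1) / 2, g.2, by omega, ?_, ?_⟩
  · intro c hc h0
    have h1 : c • g = 0 := by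
      apply Subtype.ext
      rw [AddSubgroup.coe_zsmul]
      exact h0
    have h2 := addOrderOf_dvd_iff_zsmul_eq_zero.2 h1
    rw [hq] at h2
    apply Int.eq_zero_of_abs_lt_dvd h2
    have h3 : (2 : ℤ) * (((q - 1) / 2 : ℕ) : ℤ) < q := by omega
    exact lt_of_le_of_lt hc h3
  · intro x hx
    obtain ⟨k, hk⟩ := AddSubgroup.mem_zmultiples_iff.1 (hg ⟨x, hx⟩)
    have hk2 := mod_addOrderOf_zsmul g k
    rw [hq] at hk2
    obtain ⟨r, hr⟩ : ∃ r : ℤ, r = k % (q : ℤ) := ⟨_, rfl⟩
    rw [← hr, hk] at hk2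
    have hr0 : 0 ≤ r := by rw [hr]; exact Int.emod_nonneg _ (by omega)
    have hr1 : r < q := by rw [hr]; exact Int.emod_lt_of_pos _ (by omega)
    have hrx : r • (g : ZMod N) = x := by
      have := congrArg Subtype.val hk2
      rw [AddSubgroup.coe_zsmul] at this
      exact this
    have hqg : (q : ℤ) • (g : ZMod N) = 0 := by
      have h1 : q • g = 0 := by rw [← hq]; exact addOrderOf_nsmul_eq_zero g
      have := congrArg Subtype.val h1
      rw [AddSubgroup.coe_nsmul] at this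
      rw [natCast_zsmul]
      exact this
    obtain ⟨l, hl⟩ : ∃ l : ℤ, l = (((q - 1) / 2 : ℕ) : ℤ) := ⟨_, rfl⟩
    rw [← hl]
    rcases lt_or_ge l r with h | h
    · rcases eq_or_ne r (l + 1) with h' | h'
      · refine ⟨l, by rw [abs_of_nonneg (by omega)], Or.inr ?_⟩
        rw [← hrx, h', add_smul, one_smul]
      · refine ⟨r - q, ?_, Or.inl ?_⟩
        · rw [abs_le]; constructor <;> omega
        · rw [sub_smul, hqg, sub_zero, hrx]
    · exact ⟨r, by rw [abs_of_nonneg hr0]; exact h, Or.inl hrx.symm⟩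

set_option maxHeartbeats 4000000 in
/-- A set of small doubling in `ℤ/N` is covered by few translates of a proper progression. -/
theorem cover_prog (A : Finset (ZMod N)) (hA : A.Nonempty) (K : ℝ)
    (hK : ((A + A).card : ℝ) ≤ K * A.card) :
    1 ≤ K ∧ ∃ (d : ℕ) (a : Fin d → ZMod N) (L : Fin d → ℕ) (t : ZMod N),
      (d : ℝ) ≤ 300 * Real.log (2 * K) + 1 ∧ Set.InjOn (ev a) (box L) ∧ (XX a L).card ≤ A.card ∧
      (A.card : ℝ) ≤ (2 * (K * (2 * K) ^ (17000 * (1 + Real.log (1 + Real.log (2 * K)))))) *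
        (A.filter fun y => y - t ∈ XX a L).card := by
  classical
  have hsub : TH513.IS.sm A (2 ^ 1) ⊆ A + A := by
    intro x hx
    obtain ⟨f, hf, rfl⟩ := TH513.IS.mem_sm.1 hx
    have e : ∑ i : Fin (2 ^ 1), f i = f 0 + f 1 := Fin.sum_univ_two f
    rw [e]
    exact Finset.add_mem_add (hf 0) (hf 1)
  have hL : ((TH513.IS.sm A (2 ^ 1)).card : ℝ) ≤ K * A.card :=
    le_trans (by exact_mod_cast Finset.card_le_card hsub) hK
  have hK1 : 1 ≤ K := one_le_of_card (by norm_num) hA hL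
  refine ⟨hK1, ?_⟩
  obtain ⟨d, hd, v, M, H, T, _, hprop, hcard, hT, hcov⟩ :=
    scale_coset hA le_rfl hL hK1 hK1 (by rw [pow_one])
  obtain ⟨h, L₀, hh, hL₀, hinj0, hcovH⟩ := cyclic_prog H
  obtain ⟨a, ha⟩ : ∃ a : Fin (d + 1) → ZMod N, a = Fin.cons h v := ⟨_, rfl⟩
  obtain ⟨L, hLdef⟩ : ∃ L : Fin (d + 1) → ℕ, L = Fin.cons L₀ M := ⟨_, rfl⟩
  have hev : ∀ m : Fin (d + 1) → ℤ, ev a m = m 0 • h + ∑ i : Fin d, m i.succ • v i := by
    intro m
    unfold ev
    rw [Fin.sum_univ_succ, ha]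
    simp only [Fin.cons_zero, Fin.cons_succ, zsmul_eq_mul]
  have hinj : Set.InjOn (ev a) (box L) := by
    intro m hm m' hm' heq
    rw [mem_coe, mem_box] at hm hm'
    rw [hev, hev] at heq
    have h1 : ∑ i : Fin d, m i.succ • v i - ∑ i : Fin d, m' i.succ • v i ∈ H := by
      have e : ∑ i : Fin d, m i.succ • v i - ∑ i : Fin d, m' i.succ • v i =
          m' 0 • h - m 0 • h := by
        rw [sub_eq_sub_iff_add_eq_add]
        rw [add_comm, heq, add_comm]
      rw [e]
      exact H.sub_mem (H.zsmul_mem hh _) (H.zsmul_mem hh _)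
    have h2 := hprop (fun i => m i.succ) (fun i => m' i.succ)
      (fun i => by
        have := hm i.succ
        rw [hLdef] at this
        simpa using this)
      (fun i => by
        have := hm' i.succ
        rw [hLdef] at this
        simpa using this) h1
    have h3 : ∀ i : Fin d, m i.succ = m' i.succ := fun i => congrFun h2 i
    have h4 : ∑ i : Fin d, m i.succ • v i = ∑ i : Fin d, m' i.succ • v i :=
      Finset.sum_congr rfl fun i _ => by rw [h3]
    rw [h4] at heq
    have h5 : (m 0 - m' 0) • h = 0 := by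
      rw [sub_smul, add_right_cancel heq, sub_self]
    have hm0 : |m 0| ≤ (L₀ : ℤ) := by
      have := hm 0
      rw [hLdef] at this
      simpa using this
    have hm0' : |m' 0| ≤ (L₀ : ℤ) := by
      have := hm' 0
      rw [hLdef] at this
      simpa using this
    have h6 := hinj0 (m 0 - m' 0) (by
      refine (abs_sub _ _).trans ?_
      linarith) h5
    funext i
    refine Fin.cases ?_ (fun j => ?_) i
    · omega
    · exact h3 j
  have hXXcard : (XX a L).card ≤ A.card := by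
    have h1 : (XX a L).card ≤ ∏ i, (2 * L i + 1) := card_XX_le a L
    have h2 : ∏ i, (2 * L i + 1) = (2 * L₀ + 1) * ∏ i, (2 * M i + 1) := by
      rw [Fin.prod_univ_succ, hLdef]
      simp only [Fin.cons_zero, Fin.cons_succ]
    rw [h2] at h1
    refine h1.trans (le_trans ?_ hcard)
    rw [mul_comm]
    exact Nat.mul_le_mul_left _ hL₀
  obtain ⟨T₂, hT₂⟩ : ∃ T₂ : Finset (ZMod N), T₂ = T ∪ T.image (fun t => t + h) := ⟨_, rfl⟩
  have hT₂card : (T₂.card : ℝ) ≤ 2 * (K * (2 * K) ^ (17000 * (1 + Real.log (1 + Real.log (2 * K))))) := by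
    have h1 : T₂.card ≤ T.card + T.card := by
      rw [hT₂]
      exact (card_union_le _ _).trans (Nat.add_le_add_left card_image_le _)
    have h2 : (T₂.card : ℝ) ≤ T.card + T.card := by exact_mod_cast h1
    linarith
  have hcov2 : ∀ y ∈ A, ∃ t ∈ T₂, y - t ∈ XX a L := by
    intro y hy
    obtain ⟨t, ht, c, hc, x, hx, e⟩ := hcov y hy
    obtain ⟨c₀, hc₀, hx2⟩ := hcovH x hx
    have hmem : ev a (Fin.cons c₀ c : Fin (d + 1) → ℤ) ∈ XX a L := by
      unfold XX
      refine mem_image_of_mem _ ?_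
      rw [mem_box, hLdef]
      intro i
      refine Fin.cases ?_ (fun j => ?_) i
      · simpa using hc₀
      · simpa using hc j
    have hval : ev a (Fin.cons c₀ c : Fin (d + 1) → ℤ) = c₀ • h + ∑ i, c i • v i := by
      rw [hev]
      simp only [Fin.cons_zero, Fin.cons_succ]
    rw [hval] at hmem
    rcases hx2 with hx2 | hx2
    · refine ⟨t, by rw [hT₂]; exact mem_union_left _ ht, ?_⟩
      have : y - t = c₀ • h + ∑ i, c i • v i := by rw [e, hx2]; abel
      rw [this]; exact hmem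
    · refine ⟨t + h, by rw [hT₂]; exact mem_union_right _ (mem_image_of_mem _ ht), ?_⟩
      have : y - (t + h) = c₀ • h + ∑ i, c i • v i := by rw [e, hx2]; abel
      rw [this]; exact hmem
  obtain ⟨t, ht, hcount⟩ := H112.cover_pigeonhole hA (fun t y => y - t ∈ XX a L) hcov2
  refine ⟨d + 1, a, L, t, by push_cast; linarith, hinj, hXXcard, ?_⟩
  have h1 : (A.card : ℝ) ≤ T₂.card * (A.filter fun y => y - t ∈ XX a L).card := by
    exact_mod_cast hcount
  exact h1.trans (mul_le_mul_of_nonneg_right hT₂card (Nat.cast_nonneg _))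

set_option maxHeartbeats 4000000 in
/-- **Bohr sets in `2A - 2A` for sets of small doubling in `ℤ/N`.** -/
theorem small_doubling (A : Finset (ZMod N)) (hA : A.Nonempty) (K : ℝ)
    (hK : ((A + A).card : ℝ) ≤ K * A.card) (R : ℝ)
    (hR : 10 ^ 6 * K * Real.log (2 * K) * (1 + Real.log (1 + Real.log (2 * K))) ≤ R) :
    ∃ Γ : Finset (ZMod N), (Γ.card : ℝ) ≤
        10 ^ 9 * K * Real.log (2 * K) ^ 2 * (1 + Real.log (1 + Real.log (2 * K))) +
          5 * (Real.log (N / A.card) / Real.log R) ∧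
      ∀ x : ZMod N, (∀ g ∈ Γ, CB.nn (g * x) ≤ 1 / (8 * R)) →
        ∃ a₁ ∈ A, ∃ a₂ ∈ A, ∃ a₃ ∈ A, ∃ a₄ ∈ A, x = a₁ + a₂ - a₃ - a₄ := by
  classical
  obtain ⟨hK1, d, a, L, t, hd, hinj, hXX, hcount⟩ := cover_prog A hA K hK
  obtain ⟨κ, hκ⟩ : ∃ κ, κ = Real.log (2 * K) := ⟨_, rfl⟩
  obtain ⟨lam, hlam⟩ : ∃ lam, lam = 1 + Real.log (1 + κ) := ⟨_, rfl⟩
  rw [← hκ, ← hlam] at hR hcount ⊢
  rw [← hκ] at hd
  have hκ69 : (0.69 : ℝ) < κ := by
    have h1 : Real.log 2 ≤ κ := by
      rw [hκ]; exact Real.log_le_log (by norm_num) (by linarith)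
    exact lt_of_lt_of_le H112.log_two_gt h1
  have hlam1 : 1 ≤ lam := by
    rw [hlam]
    have := Real.log_nonneg (show (1 : ℝ) ≤ 1 + κ by linarith)
    linarith
  obtain ⟨b, hb⟩ : ∃ b, b = K * (2 * K) ^ (17000 * lam) := ⟨_, rfl⟩
  rw [← hb] at hcount
  have h2K : (1 : ℝ) ≤ 2 * K := by linarith
  have hb1 : 1 ≤ b := by
    rw [hb]
    have h1 : (1 : ℝ) ≤ (2 * K) ^ (17000 * lam) :=
      Real.one_le_rpow h2K (by positivity)
    nlinarith
  have hlogb : Real.log b ≤ 17001 * (κ * lam) := by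
    rw [hb, Real.log_mul (by positivity) (by positivity), Real.log_rpow (by linarith), ← hκ]
    have h1 : Real.log K ≤ κ := by
      rw [hκ]; exact Real.log_le_log (by linarith) (by linarith)
    have h2 : κ ≤ κ * lam := le_mul_of_one_le_right (by linarith) hlam1
    nlinarith
  have hκlam : 0.69 ≤ κ * lam := by nlinarith
  have hlog8b : Real.log (8 * b) ≤ 17005 * (κ * lam) := by
    rw [Real.log_mul (by norm_num) (by positivity)]
    have h1 : Real.log 8 ≤ 2.1 := by
      have h2 : (8 : ℝ) = 2 ^ 3 := by norm_num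
      rw [h2, Real.log_pow]
      have := Real.log_two_lt_d9
      push_cast
      linarith
    nlinarith
  have hlog2b : Real.log (2 * b) ≤ 17005 * (κ * lam) :=
    le_trans (Real.log_le_log (by positivity) (by linarith)) hlog8b
  obtain ⟨M, hM⟩ : ∃ M : ℕ, M = ⌈16 * K * Real.log (8 * b)⌉₊ := ⟨_, rfl⟩
  have hlog8b0 : 0 ≤ Real.log (8 * b) := Real.log_nonneg (by linarith)
  have hKκ : 0.69 ≤ K * (κ * lam) := by nlinarith
  have hM1 : 16 * K * Real.log (8 * b) ≤ M := by rw [hM]; exact Nat.le_ceil _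
  have hM2 : (M : ℝ) ≤ 272082 * (K * (κ * lam)) := by
    have h1 : (M : ℝ) ≤ 16 * K * Real.log (8 * b) + 1 := by
      rw [hM]; exact (Nat.ceil_lt_add_one (by positivity)).le
    have h2 : 16 * K * Real.log (8 * b) ≤ 16 * K * (17005 * (κ * lam)) :=
      mul_le_mul_of_nonneg_left hlog8b (by linarith)
    nlinarith
  have hR' : 10 ^ 6 * (K * (κ * lam)) ≤ R := by
    calc 10 ^ 6 * (K * (κ * lam)) = 10 ^ 6 * K * κ * lam := by ring
      _ ≤ R := hR
  have hRM : 2 * (M : ℝ) ≤ R := by nlinarith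
  have hκK : κ ≤ K * (κ * lam) := by
    have h1 : κ ≤ κ * lam := le_mul_of_one_le_right (by linarith) hlam1
    have h2 : κ * lam ≤ K * (κ * lam) := le_mul_of_one_le_left (by positivity) hK1
    linarith
  have hRd : (d : ℝ) + 2 ≤ R := by nlinarith
  have hApos : (0 : ℝ) < A.card := by exact_mod_cast hA.card_pos
  have hNpos : (0 : ℝ) < N := Nat.cast_pos.mpr (NeZero.pos N)
  obtain ⟨δ, hδ⟩ : ∃ δ : ℝ, δ = 1 / (2 * b) := ⟨_, rfl⟩
  have hδ0 : 0 < δ := by rw [hδ]; positivity
  have hXXR : ((XX a L).card : ℝ) ≤ A.card := by exact_mod_cast hXX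
  have hdens : δ * (XX a L).card ≤ (A.filter fun y => y - t ∈ XX a L).card := by
    rw [hδ, one_div, inv_mul_le_iff₀ (by positivity)]
    exact hXXR.trans hcount
  have hMδ : 16 * K * Real.log (4 / δ) ≤ M := by
    have e : 4 / δ = 8 * b := by rw [hδ]; field_simp; norm_num
    rw [e]; exact hM1
  obtain ⟨Γ, hΓ, hΓ'⟩ := dense_doubling a L hinj R δ K M hRd hRM hδ0 (by linarith) hMδ A t hK hdens
  refine ⟨Γ, hΓ.trans ?_, hΓ'⟩
  -- numerics
  have hfil : ((A.filter fun y => y - t ∈ XX a L).card : ℝ) ≤ (XX a L).card := by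
    have h1 : (A.filter fun y => y - t ∈ XX a L).card ≤ (XX a L).card := by
      refine card_le_card_of_injOn (fun y => y - t) ?_ ?_
      · intro y hy
        rw [mem_coe, mem_filter] at hy
        exact hy.2
      · intro y _ z _ hyz
        exact sub_left_injective hyz
    exact_mod_cast h1
  have hXXpos : (0 : ℝ) < (XX a L).card := by
    have h1 : (0 : ℝ) < 2 * b * (A.filter fun y => y - t ∈ XX a L).card :=
      lt_of_lt_of_le hApos hcount
    have h2 : (0 : ℝ) < (A.filter fun y => y - t ∈ XX a L).card := by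
      by_contra h
      push Not at h
      have : 2 * b * ((A.filter fun y => y - t ∈ XX a L).card : ℝ) ≤ 0 :=
        mul_nonpos_of_nonneg_of_nonpos (by positivity) h
      linarith
    linarith
  have hlogN : Real.log (N / (XX a L).card) ≤ Real.log (N / A.card) + 17005 * (κ * lam) := by
    have h1 : (N : ℝ) / (XX a L).card ≤ (N / A.card) * (2 * b) := by
      rw [div_mul_eq_mul_div, div_le_div_iff₀ hXXpos hApos, mul_assoc]
      refine mul_le_mul_of_nonneg_left ?_ hNpos.le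
      exact hcount.trans (mul_le_mul_of_nonneg_left hfil (by positivity))
    have h2 := Real.log_le_log (by positivity) h1
    rw [Real.log_mul (by positivity) (by positivity)] at h2
    linarith
  have hlogR1 : 1 ≤ Real.log R := by
    rw [Real.le_log_iff_exp_le (by linarith)]
    have h1 := Real.exp_one_lt_d9
    nlinarith
  have hlogR0 : 0 < Real.log R := by linarith
  obtain ⟨Φ, hΦ⟩ : ∃ Φ, Φ = K * κ ^ 2 * lam := ⟨_, rfl⟩
  have hΦ1 : K * (κ * lam) ≤ 1.45 * Φ := by
    rw [hΦ]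
    have h1 : 0 ≤ K * (κ * lam) := by positivity
    have h2 : K * κ ^ 2 * lam = (K * (κ * lam)) * κ := by ring
    rw [h2]
    nlinarith
  have hΦ0 : 0.47 ≤ Φ := by
    linarith
  have hdM : (d : ℝ) * M ≤ 8.3 * 10 ^ 7 * Φ := by
    have h1 : (d : ℝ) ≤ 301.45 * κ := by linarith
    have h2 : (d : ℝ) * M ≤ (301.45 * κ) * (272082 * (K * (κ * lam))) :=
      mul_le_mul h1 hM2 (Nat.cast_nonneg _) (by positivity)
    have h3 : (301.45 * κ) * (272082 * (K * (κ * lam))) = 301.45 * 272082 * Φ := by rw [hΦ]; ring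
    rw [h3] at h2
    have h4 : 0 ≤ Φ := by linarith
    nlinarith
  have hmain : (Real.log (N / (XX a L).card) + d * M) / Real.log R ≤
      Real.log (N / A.card) / Real.log R + (17005 * (1.45 * Φ) + 8.3 * 10 ^ 7 * Φ) := by
    have h1 : Real.log (N / (XX a L).card) + d * M ≤
        Real.log (N / A.card) + (17005 * (1.45 * Φ) + 8.3 * 10 ^ 7 * Φ) := by
      have h2 : κ * lam ≤ 1.45 * Φ := by
        have : κ * lam ≤ K * (κ * lam) := le_mul_of_one_le_left (by positivity) hK1
        linarith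
      linarith
    have h3 : 0 ≤ 17005 * (1.45 * Φ) + 8.3 * 10 ^ 7 * Φ := by linarith
    calc (Real.log (N / (XX a L).card) + d * M) / Real.log R ≤
          (Real.log (N / A.card) + (17005 * (1.45 * Φ) + 8.3 * 10 ^ 7 * Φ)) / Real.log R :=
          div_le_div_of_nonneg_right h1 hlogR0.le
      _ = Real.log (N / A.card) / Real.log R +
          (17005 * (1.45 * Φ) + 8.3 * 10 ^ 7 * Φ) / Real.log R := add_div _ _ _
      _ ≤ _ := by
          have := div_le_self h3 hlogR1
          linarith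
  have e : 10 ^ 9 * K * κ ^ 2 * lam = 10 ^ 9 * Φ := by rw [hΦ]; ring
  rw [e]
  linarith

end Pool.Agent.V1121.PF.LC
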