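import Pool.Agent.V1121.PF.LC.Cyc
set_option autoImplicit false

/-! A lower bound for Bohr sets contained in `2A - 2A`, and the consequences of `small_doubling`. -/

namespace Pool.Agent.V1121.PF.LC

open Finset Pool.Agent.TH858 Pool.Agent.TH858.GP
open scoped Pointwise

variable {N : ℕ} [NeZero N]

/-- pigeonhole -/
theorem bohr_large (Γ : Finset (ZMod N)) (q : ℕ) (hq : 0 < q) (B : Finset (ZMod N))
    (hB : ∀ x : ZMod N, (∀ g ∈ Γ, CB.nn (g * x) ≤ 1 / (q : ℝ)) → x ∈ B) :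
    N ≤ q ^ Γ.card * B.card := by
  classical
  have hN : (0 : ℝ) < N := Nat.cast_pos.mpr (NeZero.pos N)
  have hqR : (0 : ℝ) < q := Nat.cast_pos.mpr hq
  have hlt : ∀ c : ZMod N, q * c.val / N < q := by
    intro c
    rw [Nat.div_lt_iff_lt_mul (NeZero.pos N)]
    exact Nat.mul_lt_mul_of_pos_left (ZMod.val_lt c) hq
  obtain ⟨f, hf⟩ : ∃ f : ZMod N → (Γ → Fin q), f = fun x g => ⟨q * ((g : ZMod N) * x).val / N, hlt _⟩ :=
    ⟨_, rfl⟩
  have hcard : (univ : Finset (ZMod N)).card ≤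
      B.card * (univ.image f).card := by
    refine card_le_mul_card_image univ B.card ?_
    intro b hb
    rw [mem_image] at hb
    obtain ⟨x₀, _, rfl⟩ := hb
    refine card_le_card_of_injOn (fun x => x - x₀) ?_ (fun x _ y _ h => sub_left_injective h)
    intro x hx
    rw [mem_coe, mem_filter] at hx
    rw [mem_coe]
    apply hB
    intro g hg
    have h1 := congrFun hx.2 ⟨g, hg⟩
    rw [hf] at h1
    have h2 : q * (g * x).val / N = q * (g * x₀).val / N := by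
      simpa using h1
    have h3 : CB.nn (g * (x - x₀)) = CB.nint ((((g * x).val : ℤ) - ((g * x₀).val : ℤ) : ℤ) / (N : ℝ)) := by
      rw [CB.nint_eq_nn]
      push_cast
      rw [ZMod.natCast_zmod_val, ZMod.natCast_zmod_val]
      ring
    have h4 : ∀ a : ℝ, CB.nint a ≤ |a| := by
      intro a
      have h5 := GP.nint_add_le 0 a
      have h6 : CB.nint 0 = 0 := by unfold CB.nint; simp
      rw [h6, zero_add, zero_add] at h5
      exact h5
    rw [h3]
    refine (h4 _).trans ?_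
    rw [abs_div, abs_of_pos hN, div_le_div_iff₀ hN hqR, one_mul]
    have h7 : |((((g * x).val : ℤ) - ((g * x₀).val : ℤ) : ℤ) : ℝ)| * q =
        ((|((q * (g * x).val : ℕ) : ℤ) - ((q * (g * x₀).val : ℕ) : ℤ)| : ℤ) : ℝ) := by
      push_cast
      rw [← mul_sub, abs_mul, abs_of_pos hqR, mul_comm]
    rw [h7]
    have h8 : |((q * (g * x).val : ℕ) : ℤ) - ((q * (g * x₀).val : ℕ) : ℤ)| ≤ (N : ℤ) := by
      have e1 := Nat.div_add_mod (q * (g * x).val) N
      have e2 := Nat.div_add_mod (q * (g * x₀).val) N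
      have l1 := Nat.mod_lt (q * (g * x).val) (NeZero.pos N)
      have l2 := Nat.mod_lt (q * (g * x₀).val) (NeZero.pos N)
      rw [h2] at e1
      rw [abs_le]
      constructor <;> omega
    exact_mod_cast h8
  have h1 : (univ.image f).card ≤ q ^ Γ.card := by
    refine (card_le_univ _).trans ?_
    rw [Fintype.card_fun, Fintype.card_fin, Fintype.card_coe]
  rw [card_univ, ZMod.card] at hcard
  calc N ≤ B.card * (univ.image f).card := hcard
    _ ≤ B.card * q ^ Γ.card := Nat.mul_le_mul_left _ h1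
    _ = _ := mul_comm _ _

/-- the size of `2A - 2A` -/
theorem card_two_two (A : Finset (ZMod N)) (hA : A.Nonempty) (K : ℝ) (hK : ((A + A).card : ℝ) ≤ K * A.card) :
    (((2 • A) - (2 • A)).card : ℝ) ≤ K ^ 4 * A.card := by
  classical
  have hApos : (0 : ℝ) < A.card := by exact_mod_cast hA.card_pos
  have h1 := Finset.pluennecke_ruzsa_inequality_nsmul_sub_nsmul_add hA A 2 2
  have h2 : (((2 • A) - (2 • A)).card : ℝ) ≤ (((A + A).card : ℝ) / A.card) ^ (2 + 2) * A.card := by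
    have h3 := (NNRat.cast_le (K := ℝ)).2 h1
    push_cast at h3
    exact h3
  refine h2.trans ?_
  refine mul_le_mul_of_nonneg_right ?_ hApos.le
  have h3 : ((A + A).card : ℝ) / A.card ≤ K := by rw [div_le_iff₀ hApos]; exact hK
  exact pow_le_pow_left₀ (by positivity) h3 4

/-- a lower bound for the number of frequencies -/
theorem lower (A : Finset (ZMod N)) (hA : A.Nonempty) (K : ℝ) (hK1 : 1 ≤ K)
    (hK : ((A + A).card : ℝ) ≤ K * A.card) (Γ : Finset (ZMod N)) (ε : ℝ) (hε : 0 < ε) (hε1 : ε ≤ 1)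
    (h : ∀ x : ZMod N, (∀ g ∈ Γ, CB.nn (g * x) ≤ ε) →
        ∃ a₁ ∈ A, ∃ a₂ ∈ A, ∃ a₃ ∈ A, ∃ a₄ ∈ A, x = a₁ + a₂ - a₃ - a₄) :
    Real.log (N / A.card) ≤ Γ.card * Real.log (2 / ε) + 4 * Real.log K := by
  classical
  have hApos : (0 : ℝ) < A.card := by exact_mod_cast hA.card_pos
  have hN : (0 : ℝ) < N := Nat.cast_pos.mpr (NeZero.pos N)
  obtain ⟨q, hq⟩ : ∃ q : ℕ, q = ⌈1 / ε⌉₊ := ⟨_, rfl⟩
  have hq0 : 0 < q := by rw [hq]; exact Nat.ceil_pos.2 (by positivity)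
  have hqR : (0 : ℝ) < q := Nat.cast_pos.mpr hq0
  have hq1 : 1 / ε ≤ q := by rw [hq]; exact Nat.le_ceil _
  have hq2 : (q : ℝ) ≤ 2 / ε := by
    have h1 : (q : ℝ) < 1 / ε + 1 := by rw [hq]; exact Nat.ceil_lt_add_one (by positivity)
    have h2 : 1 ≤ 1 / ε := by rw [le_div_iff₀ hε]; linarith
    have h3 : 2 / ε = 1 / ε + 1 / ε := by ring
    linarith
  have hqε : 1 / (q : ℝ) ≤ ε := by
    rw [div_le_iff₀ hqR]
    rw [div_le_iff₀ hε] at hq1
    linarith
  have h1 := bohr_large Γ q hq0 ((2 • A) - (2 • A)) (by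
    intro x hx
    obtain ⟨a₁, h1, a₂, h2, a₃, h3, a₄, h4, rfl⟩ := h x fun g hg => (hx g hg).trans hqε
    have e : a₁ + a₂ - a₃ - a₄ = (a₁ + a₂) - (a₃ + a₄) := by abel
    rw [e, two_nsmul]
    exact sub_mem_sub (add_mem_add h1 h2) (add_mem_add h3 h4))
  have h2 := card_two_two A hA K hK
  have h3 : (N : ℝ) ≤ q ^ Γ.card * (((2 • A) - (2 • A)).card : ℝ) := by exact_mod_cast h1
  have h4 : (N : ℝ) / A.card ≤ (2 / ε) ^ Γ.card * K ^ 4 := by
    rw [div_le_iff₀ hApos, mul_assoc]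
    refine h3.trans ?_
    exact mul_le_mul (pow_le_pow_left₀ hqR.le hq2 _) h2 (Nat.cast_nonneg _) (by positivity)
  have h5 := Real.log_le_log (by positivity) h4
  rw [Real.log_mul (by positivity) (by positivity), Real.log_pow, Real.log_pow] at h5
  push_cast at h5
  exact h5

/-- the conclusion of Q1 for sets whose doubling is at most about `log (1/α)` -/
theorem question (C : ℝ) (hC : 0 < C) (A : Finset (ZMod N)) (hA : A.Nonempty) (hα : (A.card : ℝ) / N ≤ 1 / 2)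
    (K : ℝ) (hK : ((A + A).card : ℝ) ≤ K * A.card)
    (hKC : K * Real.log (2 * K) ^ 2 * (1 + Real.log (1 + Real.log (2 * K))) ≤ C * Real.log (N / A.card)) :
    ∃ Γ : Finset (ZMod N), (Γ.card : ℝ) ≤ (10 ^ 9 * C + 5) * Real.log (N / A.card) ∧
      ∀ x : ZMod N, (∀ g ∈ Γ, CB.nn (g * x) ≤ 1 / (16 * 10 ^ 6 * (C + 1)) / Real.log (N / A.card)) →
        ∃ a₁ ∈ A, ∃ a₂ ∈ A, ∃ a₃ ∈ A, ∃ a₄ ∈ A, x = a₁ + a₂ - a₃ - a₄ := by
  classical
  have hApos : (0 : ℝ) < A.card := by exact_mod_cast hA.card_pos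
  have hN : (0 : ℝ) < N := Nat.cast_pos.mpr (NeZero.pos N)
  obtain ⟨l, hl⟩ : ∃ l, l = Real.log (N / A.card) := ⟨_, rfl⟩
  rw [← hl] at hKC ⊢
  have hl1 : 0.69 < l := by
    have h1 : (2 : ℝ) ≤ N / A.card := by
      rw [div_le_iff₀ hN] at hα
      rw [le_div_iff₀ hApos]; linarith
    have h2 := Real.log_le_log (by norm_num) h1
    rw [hl]
    exact lt_of_lt_of_le H112.log_two_gt h2
  obtain ⟨hK1, _⟩ := cover_prog A hA K hK
  obtain ⟨κ, hκ⟩ : ∃ κ, κ = Real.log (2 * K) := ⟨_, rfl⟩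
  obtain ⟨lam, hlam⟩ : ∃ lam, lam = 1 + Real.log (1 + κ) := ⟨_, rfl⟩
  rw [← hκ, ← hlam] at hKC
  have hκ69 : (0.69 : ℝ) < κ := by
    have h1 : Real.log 2 ≤ κ := by
      rw [hκ]; exact Real.log_le_log (by norm_num) (by linarith)
    exact lt_of_lt_of_le H112.log_two_gt h1
  have hlam1 : 1 ≤ lam := by
    rw [hlam]
    have := Real.log_nonneg (show (1 : ℝ) ≤ 1 + κ by linarith)
    linarith
  obtain ⟨Φ, hΦ⟩ : ∃ Φ, Φ = K * κ ^ 2 * lam := ⟨_, rfl⟩
  rw [← hΦ] at hKC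
  have hΦ1 : K * (κ * lam) ≤ 1.45 * Φ := by
    rw [hΦ]
    have h1 : 0 ≤ K * (κ * lam) := by positivity
    have h2 : K * κ ^ 2 * lam = (K * (κ * lam)) * κ := by ring
    rw [h2]
    nlinarith
  have hCl : 0 < C * l := by positivity
  have hR : 10 ^ 6 * K * Real.log (2 * K) * (1 + Real.log (1 + Real.log (2 * K))) ≤
      2 * 10 ^ 6 * (C + 1) * l := by
    rw [← hκ, ← hlam]
    have e : 10 ^ 6 * K * κ * lam = 10 ^ 6 * (K * (κ * lam)) := by ring
    rw [e]
    nlinarith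
  obtain ⟨Γ, h1, h2⟩ := small_doubling A hA K hK _ hR
  refine ⟨Γ, ?_, ?_⟩
  · refine h1.trans ?_
    rw [← hκ, ← hlam, ← hl]
    have hR1 : 1 ≤ Real.log (2 * 10 ^ 6 * (C + 1) * l) := by
      rw [Real.le_log_iff_exp_le (by positivity)]
      have h1 := Real.exp_one_lt_d9
      nlinarith
    have h3 : l / Real.log (2 * 10 ^ 6 * (C + 1) * l) ≤ l := div_le_self (by linarith) hR1
    have e : 10 ^ 9 * K * κ ^ 2 * lam = 10 ^ 9 * Φ := by rw [hΦ]; ring
    rw [e]
    nlinarith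
  · intro x hx
    apply h2 x
    intro g hg
    refine (hx g hg).trans (le_of_eq ?_)
    field_simp
    ring

end Pool.Agent.V1121.PF.LC
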