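import Pool.Agent.V1121.PF.LC.Rudin
set_option autoImplicit false

/-! Bohr sets in `2A - 2A` for a set of small doubling which is dense on a translate of a proper
progression, with a number of frequencies linear in the doubling. -/

namespace Pool.Agent.V1121.PF.LC

open Finset Complex Pool.Agent.TH858 Pool.Agent.TH858.GP
open scoped ComplexConjugate Pointwise

variable {N : ℕ} [NeZero N]

/-- a maximal dissociated family -/
theorem exists_diss (X S : Finset (ZMod N)) (κ : ℝ) :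
    ∃ Λ ⊆ S, Diss X Λ κ ∧ ∀ γ ∈ S, γ ∈ Λ ∨ ∃ ε : ZMod N → ℤ, (∀ l, |ε l| ≤ 1) ∧
      κ * X.card < ‖∑ y ∈ X, ψ ((γ - ∑ l ∈ Λ, (ε l : ZMod N) * l) * y)‖ := by
  classical
  obtain ⟨T, hT⟩ : ∃ T : Finset (Finset (ZMod N)), T = S.powerset.filter fun Λ => Diss X Λ κ :=
    ⟨_, rfl⟩
  have hTne : T.Nonempty := by
    refine ⟨∅, ?_⟩
    rw [hT, mem_filter]
    refine ⟨by simp, ?_⟩
    rintro ε _ ⟨l, hl, _⟩
    exact absurd hl (notMem_empty l)
  obtain ⟨Λ, hΛ, hmax⟩ := exists_max_image T (fun Λ => Λ.card) hTne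
  have hΛ' := hΛ
  rw [hT, mem_filter, mem_powerset] at hΛ'
  refine ⟨Λ, hΛ'.1, hΛ'.2, fun γ hγ => ?_⟩
  by_cases hmem : γ ∈ Λ
  · exact Or.inl hmem
  right
  have hnot : ¬ Diss X (insert γ Λ) κ := by
    intro h
    have h3 : insert γ Λ ∈ T := by
      rw [hT, mem_filter, mem_powerset]
      exact ⟨insert_subset hγ hΛ'.1, h⟩
    have h4 := hmax _ h3
    rw [card_insert_of_notMem hmem] at h4
    omega
  unfold Diss at hnot
  push Not at hnot
  obtain ⟨ε, hε, hne, hlt⟩ := hnot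
  rw [sum_insert hmem] at hlt
  have hcases : ε γ = 0 ∨ ε γ = 1 ∨ ε γ = -1 := by
    have := abs_le.1 (hε γ)
    omega
  rcases hcases with h | h | h
  · exfalso
    rw [h] at hlt
    simp only [Int.cast_zero, zero_mul, zero_add] at hlt
    obtain ⟨l, hl, hl0⟩ := hne
    rcases mem_insert.1 hl with rfl | hl
    · exact hl0 h
    · exact absurd (hΛ'.2 ε hε ⟨l, hl, hl0⟩) (not_le.2 hlt)
  · refine ⟨fun l => -ε l, fun l => by rw [abs_neg]; exact hε l, ?_⟩
    have e : γ - ∑ l ∈ Λ, ((-ε l : ℤ) : ZMod N) * l =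
        ((ε γ : ℤ) : ZMod N) * γ + ∑ l ∈ Λ, (ε l : ZMod N) * l := by
      rw [h]
      push_cast
      simp only [neg_mul, sum_neg_distrib]
      ring
    rw [e]
    exact hlt
  · refine ⟨ε, hε, ?_⟩
    have e : -(γ - ∑ l ∈ Λ, ((ε l : ℤ) : ZMod N) * l) =
        ((ε γ : ℤ) : ZMod N) * γ + ∑ l ∈ Λ, (ε l : ZMod N) * l := by
      rw [h]
      push_cast
      ring
    rw [← norm_hat_neg, e]
    exact hlt

theorem norm_mul_sub_one_le (c : ℤ) (hc : |c| ≤ 1) (z : ZMod N) :
    ‖ψ ((c : ZMod N) * z) - 1‖ ≤ ‖ψ z - 1‖ := by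
  have hcases : c = 0 ∨ c = 1 ∨ c = -1 := by
    have := abs_le.1 hc
    omega
  rcases hcases with h | h | h
  · rw [h]; simp
  · rw [h]; simp
  · rw [h]
    have e : (((-1 : ℤ) : ZMod N)) * z = -z := by push_cast; ring
    rw [e, norm_ψ_sub_one_neg]

set_option maxHeartbeats 4000000 in
/-- **Bohr sets in `2A - 2A` for sets of small doubling.** -/
theorem dense_doubling {d : ℕ} (a : Fin d → ZMod N) (L : Fin d → ℕ)
    (hinj : Set.InjOn (ev a) (box L)) (R δ K : ℝ) (M : ℕ) (hR : (d : ℝ) + 2 ≤ R)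
    (hRM : 2 * (M : ℝ) ≤ R) (hδ : 0 < δ) (hK : 0 < K)
    (hM : 16 * K * Real.log (4 / δ) ≤ M)
    (A : Finset (ZMod N)) (t : ZMod N) (hAA : ((A + A).card : ℝ) ≤ K * A.card)
    (hdens : δ * (XX a L).card ≤ (A.filter fun y => y - t ∈ XX a L).card) :
    ∃ Γ : Finset (ZMod N), (Γ.card : ℝ) ≤ 220 * d + 1 + M +
        5 * ((Real.log (N / (XX a L).card) + d * M) / Real.log R) ∧
      ∀ x : ZMod N, (∀ g ∈ Γ, CB.nn (g * x) ≤ 1 / (8 * R)) →
        ∃ a₁ ∈ A, ∃ a₂ ∈ A, ∃ a₃ ∈ A, ∃ a₄ ∈ A, x = a₁ + a₂ - a₃ - a₄ := by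
  classical
  have hNpos : (0 : ℝ) < N := Nat.cast_pos.mpr (NeZero.pos N)
  have hd0 : (0 : ℝ) ≤ d := Nat.cast_nonneg d
  have hM0 : (0 : ℝ) ≤ M := Nat.cast_nonneg M
  have hR2 : 2 ≤ R := by linarith
  have hR0 : 0 < R := by linarith
  have hlogR : 0 < Real.log R := Real.log_pos (by linarith)
  obtain ⟨ρ, hρ⟩ : ∃ ρ : ℕ, ρ = ⌈R⌉₊ := ⟨_, rfl⟩
  have hρR : R ≤ ρ := by rw [hρ]; exact Nat.le_ceil R
  have hρR2 : (ρ : ℝ) ≤ R + 1 := by rw [hρ]; exact (Nat.ceil_lt_add_one hR0.le).le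
  have hρ2 : (2 : ℝ) ≤ ρ := by linarith
  have hρ2n : 2 ≤ ρ := by exact_mod_cast hρ2
  have hdρ : d ≤ ρ := by
    have : (d : ℝ) ≤ ρ := by linarith
    exact_mod_cast this
  obtain ⟨W, hW⟩ : ∃ W : ℕ, W = 8 * ρ * 2 ^ M := ⟨_, rfl⟩
  have hWpos : 0 < W := by rw [hW]; positivity
  obtain ⟨L₂, hL₂⟩ : ∃ L₂ : Fin d → ℕ, L₂ = fun i => L i / (2 * ρ) := ⟨_, rfl⟩
  obtain ⟨L₃, hL₃⟩ : ∃ L₃ : Fin d → ℕ, L₃ = fun i => L₂ i / W := ⟨_, rfl⟩
  have hL₂1 : ∀ i, 2 * ρ * L₂ i ≤ L i := fun i => by rw [hL₂]; exact Nat.mul_div_le _ _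
  have hL₂2 : ∀ i, L i < 2 * ρ * (L₂ i + 1) := fun i => by
    rw [hL₂]; exact Nat.lt_mul_div_succ _ (by positivity)
  have hL₃1 : ∀ i, W * L₃ i ≤ L₂ i := fun i => by rw [hL₃]; exact Nat.mul_div_le _ _
  have hL₃2 : ∀ i, L₂ i < W * (L₃ i + 1) := fun i => by
    rw [hL₃]; exact Nat.lt_mul_div_succ _ hWpos
  have hL₂le : ∀ i, L₂ i ≤ L i := fun i => by
    have h1 := hL₂1 i
    have h2 : L₂ i ≤ 2 * ρ * L₂ i := Nat.le_mul_of_pos_left _ (by positivity)
    omega
  have hL₃le : ∀ i, L₃ i ≤ L₂ i := fun i => by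
    have h1 := hL₃1 i
    have h2 : L₃ i ≤ W * L₃ i := Nat.le_mul_of_pos_left _ hWpos
    omega
  have hinj₂ : Set.InjOn (ev a) (box L₂) := hinj.mono (box_mono L L₂ hL₂le)
  have hinj₃ : Set.InjOn (ev a) (box L₃) := hinj₂.mono (box_mono L₂ L₃ hL₃le)
  have hXne : ∀ M : Fin d → ℕ, (XX a M).Nonempty := fun M => by
    have : (0 : Fin d → ℤ) ∈ box M := by rw [mem_box]; intro i; simp
    exact ⟨_, mem_image_of_mem (ev a) this⟩
  have hPpos : (0 : ℝ) < (XX a L).card := by exact_mod_cast (hXne L).card_pos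
  have hX₂pos : (0 : ℝ) < (XX a L₂).card := by exact_mod_cast (hXne L₂).card_pos
  have hX₃pos : (0 : ℝ) < (XX a L₃).card := by exact_mod_cast (hXne L₃).card_pos
  obtain ⟨A', hA'⟩ : ∃ A' : Finset (ZMod N), A' = A.filter fun y => y - t ∈ XX a L := ⟨_, rfl⟩
  rw [← hA'] at hdens
  have hA'mem : ∀ y ∈ A', y - t ∈ XX a L := by
    intro y hy
    rw [hA', mem_filter] at hy
    exact hy.2
  have hA'sub : A' ⊆ A := by rw [hA']; exact filter_subset _ _
  have hApos' : (0 : ℝ) < A'.card := lt_of_lt_of_le (by positivity) hdens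
  have hA'ne : A'.Nonempty := by
    rw [← card_pos]
    exact_mod_cast hApos'
  have hAne : A.Nonempty := hA'ne.mono hA'sub
  have hApos : (0 : ℝ) < A.card := by exact_mod_cast hAne.card_pos
  have hsum := card_sum_le a L L₂ hinj ρ (by omega) hdρ hL₂1
  -- a dense translate
  obtain ⟨u, hu⟩ := exists_dense_translate A' (XX a L₂) (2 * (XX a L).card) (by positivity) hA'ne
    (hXne L₂) (by
    refine le_trans ?_ hsum
    have h1 : ((A' ×ˢ XX a L₂).image fun p => p.1 - p.2) ⊆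
        (XX a (fun i => L i + L₂ i)).image fun z => t + z := by
      intro z hz
      rw [mem_image] at hz
      obtain ⟨p, hp, rfl⟩ := hz
      rw [mem_product] at hp
      rw [mem_image]
      refine ⟨p.1 - t - p.2, sub_mem_XX a L L₂ _ _ (hA'mem _ hp.1) hp.2, by ring⟩
    have h2 := (card_le_card h1).trans card_image_le
    exact_mod_cast h2)
  obtain ⟨A₂, hA₂⟩ : ∃ A₂ : Finset (ZMod N), A₂ = A'.filter fun y => y - u ∈ XX a L₂ := ⟨_, rfl⟩
  rw [← hA₂] at hu
  have hA₂sub : A₂ ⊆ A := by rw [hA₂]; exact (filter_subset _ _).trans hA'sub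
  have hA₂dens : δ / 2 * (XX a L₂).card ≤ A₂.card := by
    have h1 : δ * (XX a L).card * (XX a L₂).card ≤ 2 * (XX a L).card * A₂.card :=
      (mul_le_mul_of_nonneg_right hdens hX₂pos.le).trans hu
    have h2 : (δ / 2 * (XX a L₂).card) * (2 * (XX a L).card) ≤ A₂.card * (2 * (XX a L).card) := by
      calc (δ / 2 * (XX a L₂).card) * (2 * (XX a L).card) =
            δ * (XX a L).card * (XX a L₂).card := by ring
        _ ≤ _ := h1
        _ = _ := by ring
    exact le_of_mul_le_mul_right h2 (by positivity)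
  have hA₂pos : (0 : ℝ) < A₂.card := lt_of_lt_of_le (by positivity) hA₂dens
  have hA₂ne : A₂.Nonempty := by
    rw [← card_pos]
    exact_mod_cast hA₂pos
  -- the energy
  have hen : 1 / K * (A.card * (A₂.card : ℝ) ^ 2) ≤ quad A A₂ 0 := by
    have h1 := energy A A₂
    have h2 : ((A + A₂).card : ℝ) ≤ K * A.card := by
      refine le_trans ?_ hAA
      exact_mod_cast card_le_card (add_subset_add_left hA₂sub)
    have h3 : ((A.card : ℝ) * A₂.card) ^ 2 ≤ (K * A.card) * quad A A₂ 0 :=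
      h1.trans (mul_le_mul_of_nonneg_right h2 (Nat.cast_nonneg _))
    have h4 : (1 / K * (A.card * (A₂.card : ℝ) ^ 2)) * (K * A.card) ≤
        (quad A A₂ 0 : ℝ) * (K * A.card) := by
      calc (1 / K * (A.card * (A₂.card : ℝ) ^ 2)) * (K * A.card) =
            ((A.card : ℝ) * A₂.card) ^ 2 := by field_simp
        _ ≤ _ := h3
        _ = _ := mul_comm _ _
    exact le_of_mul_le_mul_right h4 (by positivity)
  -- the ambient set
  obtain ⟨Xu, hXu⟩ : ∃ Xu : Finset (ZMod N), Xu = (XX a L₂).image fun z => u + z := ⟨_, rfl⟩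
  have hXucard : Xu.card = (XX a L₂).card := by
    rw [hXu]
    exact card_image_of_injective _ (add_right_injective u)
  have hA₂Xu : A₂ ⊆ Xu := by
    intro y hy
    rw [hA₂, mem_filter] at hy
    rw [hXu, mem_image]
    exact ⟨y - u, hy.2, by ring⟩
  -- the characters
  obtain ⟨κ, hκ⟩ : ∃ κ : ℝ, κ = 1 / 2 ^ (M + 1) := ⟨_, rfl⟩
  have hκ0 : 0 < κ := by rw [hκ]; positivity
  obtain ⟨Λ, hΛS, hΛ1, hΛ2⟩ := exists_diss Xu
    (univ.filter fun g => 1 / K / 4 * (A₂.card : ℝ) ^ 2 ≤ wt A₂ g) κ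
  have hΛcard : Λ.card ≤ M := by
    by_contra hcon
    push Not at hcon
    obtain ⟨Λ', hΛ's, hΛ'c⟩ := exists_subset_card_eq (show M + 1 ≤ Λ.card by omega)
    have h1 := chang A₂ Xu Λ' hA₂Xu hA₂ne (δ / 2) (by positivity) (by rw [hXucard]; exact hA₂dens)
      κ hκ0.le (hΛ1.mono hΛ's) (by
        rw [hΛ'c, hκ]
        rw [mul_one_div, div_self (by positivity)])
    have h2 : (Λ'.card : ℝ) * (1 / K / 4 * (A₂.card : ℝ) ^ 2) ≤ ∑ l ∈ Λ', wt A₂ l := by
      rw [← nsmul_eq_mul]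
      refine card_nsmul_le_sum _ _ _ fun l hl => ?_
      have := hΛS (hΛ's hl)
      rw [mem_filter] at this
      exact this.2
    have h3 := h2.trans h1
    have e : (2 : ℝ) / (δ / 2) = 4 / δ := by field_simp; norm_num
    rw [e, hΛ'c] at h3
    have h4 : ((M + 1 : ℕ) : ℝ) * (1 / K / 4) ≤ 4 * Real.log (4 / δ) := by
      have h5 : (((M + 1 : ℕ) : ℝ) * (1 / K / 4)) * (A₂.card : ℝ) ^ 2 ≤
          (4 * Real.log (4 / δ)) * (A₂.card : ℝ) ^ 2 := by linarith
      exact le_of_mul_le_mul_right h5 (by positivity)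
    have h6 : ((M + 1 : ℕ) : ℝ) ≤ 16 * K * Real.log (4 / δ) := by
      have e2 : ((M + 1 : ℕ) : ℝ) * (1 / K / 4) = ((M + 1 : ℕ) : ℝ) / (4 * K) := by
        field_simp
      rw [e2, div_le_iff₀ (by positivity)] at h4
      linarith
    push_cast at h6
    linarith
  obtain ⟨Γ₀, hΓ₀, hΓ₀'⟩ := general a L₃ hinj₃ R hR
  refine ⟨Γ₀ ∪ Λ, ?_, ?_⟩
  · -- the number of frequencies
    have hcard : ((XX a L).card : ℝ) ≤ (32 * (ρ : ℝ) ^ 2 * 2 ^ M) ^ d * (XX a L₃).card := by
      have h1 : (XX a L).card = ∏ i, (2 * L i + 1) := by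
        unfold XX
        rw [card_image_of_injOn hinj, card_box]
      have h2 : (XX a L₃).card = ∏ i, (2 * L₃ i + 1) := by
        unfold XX
        rw [card_image_of_injOn hinj₃, card_box]
      have h3 : (32 * (ρ : ℝ) ^ 2 * 2 ^ M) ^ d = ∏ _i : Fin d, (32 * (ρ : ℝ) ^ 2 * 2 ^ M) := by simp
      rw [h1, h2, h3]
      push_cast
      rw [← prod_mul_distrib]
      refine prod_le_prod (fun i _ => by positivity) fun i _ => ?_
      have h4 : (L i : ℝ) + 1 ≤ 2 * ρ * (L₂ i + 1) := by exact_mod_cast hL₂2 i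
      have h5 : (L₂ i : ℝ) + 1 ≤ (8 * ρ * 2 ^ M) * (L₃ i + 1) := by
        have := hL₃2 i
        rw [hW] at this
        exact_mod_cast this
      have h6 : (L i : ℝ) + 1 ≤ 2 * ρ * ((8 * ρ * 2 ^ M) * (L₃ i + 1)) :=
        h4.trans (mul_le_mul_of_nonneg_left h5 (by positivity))
      have h7 : 2 * (ρ : ℝ) * ((8 * ρ * 2 ^ M) * (L₃ i + 1)) =
          16 * (ρ : ℝ) ^ 2 * 2 ^ M * (L₃ i + 1) := by ring
      rw [h7] at h6
      have h8 : 0 ≤ 16 * (ρ : ℝ) ^ 2 * 2 ^ M * L₃ i := by positivity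
      nlinarith
    have hlogρ : Real.log (32 * (ρ : ℝ) ^ 2 * 2 ^ M) ≤ 9 * Real.log R + M := by
      have h1 : 32 * (ρ : ℝ) ^ 2 ≤ R ^ 9 := by
        have h5 : (32 : ℝ) ≤ R ^ 5 := by
          calc (32 : ℝ) = 2 ^ 5 := by norm_num
            _ ≤ R ^ 5 := pow_le_pow_left₀ (by norm_num) hR2 5
        have h6 : (ρ : ℝ) ≤ R ^ 2 := by nlinarith
        calc 32 * (ρ : ℝ) ^ 2 ≤ R ^ 5 * (R ^ 2) ^ 2 := by gcongr
          _ = R ^ 9 := by ring
      have h2 := Real.log_le_log (by positivity) h1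
      rw [Real.log_pow] at h2
      push_cast at h2
      rw [Real.log_mul (by positivity) (by positivity), Real.log_pow]
      have h3 : Real.log 2 ≤ 1 := by have := Real.log_two_lt_d9; linarith
      have h4 : (M : ℝ) * Real.log 2 ≤ M * 1 := mul_le_mul_of_nonneg_left h3 hM0
      linarith
    have hlog : Real.log (N / (XX a L₃).card) ≤
        Real.log (N / (XX a L).card) + d * (9 * Real.log R + M) := by
      have h1 : (N : ℝ) / (XX a L₃).card ≤
          (N / (XX a L).card) * (32 * (ρ : ℝ) ^ 2 * 2 ^ M) ^ d := by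
        rw [div_mul_eq_mul_div, div_le_div_iff₀ hX₃pos hPpos, mul_assoc]
        exact mul_le_mul_of_nonneg_left hcard hNpos.le
      have h2 := Real.log_le_log (by positivity) h1
      rw [Real.log_mul (by positivity) (by positivity), Real.log_pow] at h2
      have h3 : (d : ℝ) * Real.log (32 * (ρ : ℝ) ^ 2 * 2 ^ M) ≤ d * (9 * Real.log R + M) :=
        mul_le_mul_of_nonneg_left hlogρ hd0
      linarith
    have h1 : Real.log (N / (XX a L₃).card) / Real.log R ≤
        (Real.log (N / (XX a L).card) + d * M) / Real.log R + 9 * d := by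
      rw [div_add' _ _ _ hlogR.ne']
      refine div_le_div_of_nonneg_right ?_ hlogR.le
      linarith
    have h2 : ((Γ₀ ∪ Λ).card : ℝ) ≤ Γ₀.card + Λ.card := by exact_mod_cast card_union_le Γ₀ Λ
    have h3 : (Λ.card : ℝ) ≤ M := by exact_mod_cast hΛcard
    linarith
  · intro x hx
    have hx₃ : x ∈ XX a L₃ := hΓ₀' x fun g hg => hx g (mem_union_left _ hg)
    have hsmall : ∀ l ∈ Λ, ‖ψ (l * x) - 1‖ ≤ 4 / (4 * R) := by
      intro l hl
      refine (norm_ψ_sub_one_le _).trans ?_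
      have h1 := hx l (mem_union_right _ hl)
      have h3 := Real.pi_lt_four
      have h4 := Real.pi_pos
      have h5 : 0 ≤ CB.nn (l * x) := CB.nint_nonneg _
      calc 2 * Real.pi * CB.nn (l * x) ≤ 2 * Real.pi * (1 / (8 * R)) :=
            mul_le_mul_of_nonneg_left h1 (by positivity)
        _ ≤ 2 * 4 * (1 / (8 * R)) := by
            refine mul_le_mul_of_nonneg_right (by linarith) (by positivity)
        _ = 4 / (4 * R) := by
            field_simp
            norm_num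
    have hq := bogo A A₂ (1 / K) (by positivity) hAne hA₂ne hen x (fun g hg => by
      apply re_ge_half
      rcases hΛ2 g (by rw [mem_filter]; exact ⟨mem_univ _, hg⟩) with hgΛ | ⟨ε, hε, hlt⟩
      · refine (hsmall g hgΛ).trans ?_
        rw [div_le_one (by positivity)]
        linarith
      · obtain ⟨γ', hγ'⟩ : ∃ γ', γ' = g - ∑ l ∈ Λ, (ε l : ZMod N) * l := ⟨_, rfl⟩
        rw [← hγ', hXucard, hXu, norm_hat_translate] at hlt
        -- `γ'` is almost constant on the short progression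
        have h1 : ‖ψ (γ' * x) - 1‖ ≤ 1 / 4 := by
          have hxm := hx₃
          unfold XX at hxm
          rw [mem_image] at hxm
          obtain ⟨m, hm, hmx⟩ := hxm
          rw [mem_box] at hm
          have hm1 : ∀ i, (W : ℝ) * |(m i : ℝ)| ≤ L₂ i := by
            intro i
            have h3 : |(m i : ℝ)| ≤ L₃ i := by exact_mod_cast hm i
            have h4 : (W : ℝ) * L₃ i ≤ L₂ i := by exact_mod_cast hL₃1 i
            have h5 : (W : ℝ) * |(m i : ℝ)| ≤ W * L₃ i :=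
              mul_le_mul_of_nonneg_left h3 (Nat.cast_nonneg _)
            linarith
          have hm2 : ∀ i, |m i| ≤ 2 * (L₂ i : ℤ) := by
            intro i
            have h3 := hm i
            have h4 : (L₃ i : ℤ) ≤ L₂ i := by exact_mod_cast hL₃le i
            have h5 : (0 : ℤ) ≤ L₂ i := Int.natCast_nonneg _
            linarith
          have h3 := shift_prog a L₂ hinj₂ γ' m (fun i => by exact_mod_cast hm2 i)
          rw [hmx] at h3
          have hWR : (0 : ℝ) < W := by exact_mod_cast hWpos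
          have h4 : ∑ i, |(m i : ℝ)| / (2 * (L₂ i : ℝ) + 1) ≤ d / (2 * W) := by
            calc ∑ i, |(m i : ℝ)| / (2 * (L₂ i : ℝ) + 1) ≤ ∑ _i : Fin d, (1 : ℝ) / (2 * W) := by
                  refine sum_le_sum fun i _ => ?_
                  rw [div_le_div_iff₀ (by positivity) (by positivity)]
                  have := hm1 i
                  nlinarith
              _ = d / (2 * W) := by
                  rw [sum_const, card_univ, Fintype.card_fin, nsmul_eq_mul]
                  ring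
          have h5 : κ * (XX a L₂).card * ‖ψ (γ' * x) - 1‖ ≤
              2 * (XX a L₂).card * (d / (2 * W)) := by
            calc κ * (XX a L₂).card * ‖ψ (γ' * x) - 1‖ ≤
                  ‖∑ y ∈ XX a L₂, ψ (γ' * y)‖ * ‖ψ (γ' * x) - 1‖ :=
                  mul_le_mul_of_nonneg_right hlt.le (norm_nonneg _)
              _ ≤ 2 * (XX a L₂).card * ∑ i, |(m i : ℝ)| / (2 * (L₂ i : ℝ) + 1) := h3
              _ ≤ _ := mul_le_mul_of_nonneg_left h4 (by positivity)
          have h6 : (κ * ‖ψ (γ' * x) - 1‖) * (XX a L₂).card ≤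
              (d / W) * (XX a L₂).card := by
            have e : 2 * ((XX a L₂).card : ℝ) * (d / (2 * W)) = (d / W) * (XX a L₂).card := by
              field_simp
            linarith
          have h7 := le_of_mul_le_mul_right h6 hX₂pos
          have h8 : (d : ℝ) / W ≤ κ * (1 / 4) := by
            rw [hκ, hW]
            push_cast
            have e : (1 : ℝ) / 2 ^ (M + 1) * (1 / 4) = 1 / (8 * 2 ^ M) := by
              rw [pow_succ]
              field_simp
              norm_num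
            rw [e, div_le_div_iff₀ (by positivity) (by positivity)]
            have h9 : (d : ℝ) ≤ ρ := by exact_mod_cast hdρ
            have h10 : (0 : ℝ) ≤ 8 * 2 ^ M := by positivity
            nlinarith
          exact le_of_mul_le_mul_left (h7.trans h8) hκ0
        have e1 : g * x = γ' * x + ∑ l ∈ Λ, (ε l : ZMod N) * (l * x) := by
          rw [hγ', sub_mul, sum_mul]
          have : ∑ l ∈ Λ, (ε l : ZMod N) * l * x = ∑ l ∈ Λ, (ε l : ZMod N) * (l * x) :=
            sum_congr rfl fun l _ => by ring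
          rw [this]
          ring
        rw [e1]
        refine (norm_ψ_sub_one_add _ _).trans ?_
        have h2 : ‖ψ (∑ l ∈ Λ, (ε l : ZMod N) * (l * x)) - 1‖ ≤ M * (4 / (4 * R)) := by
          refine (norm_ψ_sub_one_sum _ _).trans ?_
          calc ∑ l ∈ Λ, ‖ψ ((ε l : ZMod N) * (l * x)) - 1‖ ≤ ∑ _l ∈ Λ, 4 / (4 * R) := by
                refine sum_le_sum fun l hl => ?_
                exact (norm_mul_sub_one_le _ (hε l) _).trans (hsmall l hl)
            _ = Λ.card * (4 / (4 * R)) := by rw [sum_const, nsmul_eq_mul]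
            _ ≤ M * (4 / (4 * R)) := by
                refine mul_le_mul_of_nonneg_right ?_ (by positivity)
                exact_mod_cast hΛcard
        have h3 : (M : ℝ) * (4 / (4 * R)) ≤ 1 / 2 := by
          rw [mul_div_assoc', div_le_div_iff₀ (by positivity) (by norm_num)]
          linarith
        linarith)
    obtain ⟨a₁, h1, a₂, h2, a₃, h3, a₄, h4, h5⟩ := mem_of_quad A A₂ x hq
    exact ⟨a₁, h1, a₂, hA₂sub h2, a₃, h3, a₄, hA₂sub h4, h5⟩

end Pool.Agent.V1121.PF.LC
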